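import Mathlib

set_option autoImplicit false

namespace Pool.Agent.W685.OS

/-- Mazur–Orlicz: a cone of inequalities below a sublinear function is realised by a linear
functional. -/
theorem mazur_orlicz {V : Type*} [AddCommGroup V] [Module ℝ V] (q : V → ℝ)
    (q_hom : ∀ c : ℝ, 0 < c → ∀ x, q (c • x) = c * q x)
    (q_add : ∀ x y, q (x + y) ≤ q x + q y)
    (S : Set (V × ℝ)) (h0 : ((0 : V), (0 : ℝ)) ∈ S)
    (hadd : ∀ s ∈ S, ∀ t ∈ S, s + t ∈ S) (hsmul : ∀ c : ℝ, 0 < c → ∀ s ∈ S, c • s ∈ S)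
    (hq : ∀ s ∈ S, s.2 ≤ q s.1) :
    ∃ g : V →ₗ[ℝ] ℝ, (∀ x, g x ≤ q x) ∧ ∀ s ∈ S, s.2 ≤ g s.1 := by
  classical
  haveI : Nonempty S := ⟨⟨_, h0⟩⟩
  set q' : V → ℝ := fun x => ⨅ s : S, (q (x + s.1.1) - s.1.2) with hq'
  have hbdd : ∀ x, BddBelow (Set.range fun s : S => q (x + s.1.1) - s.1.2) := by
    intro x
    refine ⟨- q (-x), ?_⟩
    rintro _ ⟨s, rfl⟩
    have h1 := q_add (x + s.1.1) (-x)
    have h2 : x + s.1.1 + -x = s.1.1 := by abel
    rw [h2] at h1
    have h3 := hq s.1 s.2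
    dsimp only
    linarith
  have hle : ∀ x (s : S), q' x ≤ q (x + s.1.1) - s.1.2 := fun x s => ciInf_le (hbdd x) s
  have hom : ∀ c : ℝ, 0 < c → ∀ x, q' (c • x) = c * q' x := by
    intro c hc x
    apply le_antisymm
    · have : q' (c • x) / c ≤ q' x := by
        refine le_ciInf fun s => ?_
        rw [div_le_iff₀ hc]
        have h1 := hle (c • x) ⟨c • s.1, hsmul c hc _ s.2⟩
        have h2 : c • x + c • s.1.1 = c • (x + s.1.1) := (smul_add _ _ _).symm
        simp only [Prod.smul_fst, Prod.smul_snd, smul_eq_mul] at h1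
        rw [h2, q_hom c hc] at h1
        linarith
      rw [div_le_iff₀ hc] at this
      linarith
    · refine le_ciInf fun s => ?_
      have hc' : 0 < c⁻¹ := inv_pos.2 hc
      have h1 := hle x ⟨c⁻¹ • s.1, hsmul c⁻¹ hc' _ s.2⟩
      simp only [Prod.smul_fst, Prod.smul_snd, smul_eq_mul] at h1
      have h2 : x + c⁻¹ • s.1.1 = c⁻¹ • (c • x + s.1.1) := by
        rw [smul_add, smul_smul, inv_mul_cancel₀ hc.ne', one_smul]
      rw [h2, q_hom _ hc'] at h1
      have h3 := mul_le_mul_of_nonneg_left h1 hc.le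
      have h4 : c * (c⁻¹ * q (c • x + s.1.1) - c⁻¹ * s.1.2) = q (c • x + s.1.1) - s.1.2 := by
        field_simp
      linarith
  have hadd' : ∀ x y, q' (x + y) ≤ q' x + q' y := by
    intro x y
    have key : ∀ s t : S, q' (x + y) ≤ (q (x + s.1.1) - s.1.2) + (q (y + t.1.1) - t.1.2) := by
      intro s t
      have h1 := hle (x + y) ⟨s.1 + t.1, hadd _ s.2 _ t.2⟩
      simp only [Prod.fst_add, Prod.snd_add] at h1
      have h2 := q_add (x + s.1.1) (y + t.1.1)
      have h3 : x + s.1.1 + (y + t.1.1) = x + y + (s.1.1 + t.1.1) := by abel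
      rw [h3] at h2
      linarith
    have h1 : ∀ t : S, q' (x + y) - (q (y + t.1.1) - t.1.2) ≤ q' x := fun t =>
      le_ciInf fun s => by linarith [key s t]
    have h2 : q' (x + y) - q' x ≤ q' y := le_ciInf fun t => by linarith [h1 t]
    linarith
  have hzero : q' 0 = 0 ∨ True := Or.inr trivial
  have hq0 : 0 ≤ q' 0 := by
    refine le_ciInf fun s => ?_
    rw [zero_add]
    linarith [hq s.1 s.2]
  obtain ⟨g, -, hg⟩ := exists_extension_of_le_sublinear (⟨⊥, 0⟩ : V →ₗ.[ℝ] ℝ) q' hom hadd' (by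
    rintro ⟨x, hx⟩
    have hx' : x = 0 := by simpa using hx
    subst hx'
    simpa using hq0)
  refine ⟨g, fun x => (hg x).trans ?_, fun s hs => ?_⟩
  · have := hle x ⟨_, h0⟩
    simpa using this
  · have h1 := (hg (-s.1)).trans (hle (-s.1) ⟨s, hs⟩)
    have hq00 : q 0 ≤ 0 := by
      have h2 := q_hom 2 (by norm_num) (0 : V)
      rw [smul_zero] at h2
      linarith
    simp only [neg_add_cancel, map_neg] at h1
    linarith

end Pool.Agent.W685.OS
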