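import Mathlib
import Pool.Agent.Helper685.OSep.B
import Pool.Agent.Helper685.OSep.H
import Pool.Agent.W685.OS.MO

set_option autoImplicit false

open scoped Matrix.Norms.L2Operator

namespace Pool.Agent.W685.OS

open Pool.Agent.Helper685.OSep Matrix

/-- Ruan's axioms, with the given norm at the first level. -/
structure Ruan (E : Type) [NormedAddCommGroup E] [NormedSpace ℂ E] (N : MatNorms E) : Prop where
  one : ∀ x : E, N 1 (Matrix.of fun _ _ => x) = ‖x‖
  add : ∀ (k : ℕ) (x y : Matrix (Fin k) (Fin k) E), N k (x + y) ≤ N k x + N k y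
  smul : ∀ (k : ℕ) (c : ℂ) (x : Matrix (Fin k) (Fin k) E), N k (c • x) = ‖c‖ * N k x
  block : ∀ (k m : ℕ) (x : Matrix (Fin k) (Fin k) E) (y : Matrix (Fin m) (Fin m) E),
    N (k + m) (Matrix.reindex finSumFinEquiv finSumFinEquiv (Matrix.fromBlocks x 0 0 y))
      = max (N k x) (N m y)
  bim : ∀ (k m : ℕ) (α : Matrix (Fin k) (Fin m) ℂ) (β : Matrix (Fin m) (Fin k) ℂ)
    (x : Matrix (Fin m) (Fin m) E) (a b : ℝ), 0 ≤ a → 0 ≤ b →
    (∀ v : Fin m → ℂ, ∑ i, ‖∑ p, α i p * v p‖ ^ 2 ≤ a ^ 2 * ∑ p, ‖v p‖ ^ 2) →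
    (∀ v : Fin k → ℂ, ∑ q, ‖∑ j, β q j * v j‖ ^ 2 ≤ b ^ 2 * ∑ j, ‖v j‖ ^ 2) →
    N k (Matrix.of fun i j => ∑ p, ∑ q, (α i p * β q j) • x p q) ≤ a * N m x * b

section
variable {E : Type} [NormedAddCommGroup E] [NormedSpace ℂ E]

/-- the bimodule action -/
def mm {n r : ℕ} (α : Matrix (Fin n) (Fin r) ℂ) (β : Matrix (Fin r) (Fin n) ℂ)
    (v : Matrix (Fin r) (Fin r) E) : Matrix (Fin n) (Fin n) E :=
  Matrix.of fun i j => ∑ p, ∑ q, (α i p * β q j) • v p q

theorem mm_apply {n r : ℕ} (α : Matrix (Fin n) (Fin r) ℂ) (β : Matrix (Fin r) (Fin n) ℂ)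
    (v : Matrix (Fin r) (Fin r) E) (i j : Fin n) :
    mm α β v i j = ∑ p, ∑ q, (α i p * β q j) • v p q := rfl

theorem mm_one {n : ℕ} (v : Matrix (Fin n) (Fin n) E) : mm 1 1 v = v := by
  ext i j
  rw [mm_apply]
  simp only [Matrix.one_apply, ite_mul, one_mul, zero_mul, ite_smul, zero_smul, one_smul,
    Finset.sum_ite_eq, Finset.mem_univ, if_true, Finset.sum_ite_eq']
  rw [Finset.sum_eq_single i]
  · simp
  · intro b _ hb
    simp [Ne.symm hb]
  · simp

theorem mm_smul_left {n r : ℕ} (c d : ℂ) (α : Matrix (Fin n) (Fin r) ℂ)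
    (β : Matrix (Fin r) (Fin n) ℂ) (v : Matrix (Fin r) (Fin r) E) :
    mm (c • α) (d • β) v = (c * d) • mm α β v := by
  ext i j
  rw [Matrix.smul_apply, mm_apply, mm_apply, Finset.smul_sum]
  refine Finset.sum_congr rfl fun p _ => ?_
  rw [Finset.smul_sum]
  refine Finset.sum_congr rfl fun q _ => ?_
  rw [smul_smul, Matrix.smul_apply, Matrix.smul_apply, smul_eq_mul, smul_eq_mul]
  congr 1
  ring

theorem mm_smul_right {n r : ℕ} (c : ℂ) (α : Matrix (Fin n) (Fin r) ℂ)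
    (β : Matrix (Fin r) (Fin n) ℂ) (v : Matrix (Fin r) (Fin r) E) :
    mm α β (c • v) = c • mm α β v := by
  ext i j
  rw [Matrix.smul_apply, mm_apply, mm_apply, Finset.smul_sum]
  refine Finset.sum_congr rfl fun p _ => ?_
  rw [Finset.smul_sum]
  refine Finset.sum_congr rfl fun q _ => ?_
  rw [Matrix.smul_apply, smul_smul, smul_smul]
  congr 1
  ring

variable {N : MatNorms E}

theorem Ruan.zero (hN : Ruan E N) (n : ℕ) : N n (0 : Matrix (Fin n) (Fin n) E) = 0 := by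
  have := hN.smul n 0 (0 : Matrix (Fin n) (Fin n) E)
  rw [zero_smul, norm_zero, zero_mul] at this
  exact this

theorem Ruan.neg (hN : Ruan E N) (n : ℕ) (x : Matrix (Fin n) (Fin n) E) : N n (-x) = N n x := by
  have := hN.smul n (-1) x
  rw [norm_neg, norm_one, one_mul, neg_smul, one_smul] at this
  exact this

theorem Ruan.nonneg (hN : Ruan E N) (n : ℕ) (x : Matrix (Fin n) (Fin n) E) : 0 ≤ N n x := by
  have h := hN.add n x (-x)
  rw [add_neg_cancel, hN.zero, hN.neg] at h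
  linarith

theorem Ruan.mm_le (hN : Ruan E N) {n r : ℕ} (α : Matrix (Fin n) (Fin r) ℂ)
    (β : Matrix (Fin r) (Fin n) ℂ) (v : Matrix (Fin r) (Fin r) E) :
    N n (mm α β v) ≤ ‖α‖ * N r v * ‖β‖ :=
  hN.bim n r α β v ‖α‖ ‖β‖ (norm_nonneg _) (norm_nonneg _) (l2norm_mulVec_sq α)
    (l2norm_mulVec_sq β)

/-- direct sums -/
theorem mm_sum {n r s : ℕ} (α : Matrix (Fin n) (Fin r) ℂ) (β : Matrix (Fin r) (Fin n) ℂ)
    (v : Matrix (Fin r) (Fin r) E) (α' : Matrix (Fin n) (Fin s) ℂ) (β' : Matrix (Fin s) (Fin n) ℂ)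
    (v' : Matrix (Fin s) (Fin s) E) :
    mm ((Matrix.fromCols α α').submatrix id finSumFinEquiv.symm)
      ((Matrix.fromRows β β').submatrix finSumFinEquiv.symm id)
      (Matrix.reindex finSumFinEquiv finSumFinEquiv (Matrix.fromBlocks v 0 0 v')) =
    mm α β v + mm α' β' v' := by
  ext i j
  rw [Matrix.add_apply, mm_apply, mm_apply, mm_apply]
  rw [← finSumFinEquiv.sum_comp, Fintype.sum_sum_type]
  congr 1
  · refine Finset.sum_congr rfl fun p _ => ?_
    rw [← finSumFinEquiv.sum_comp, Fintype.sum_sum_type]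
    simp
  · refine Finset.sum_congr rfl fun p _ => ?_
    rw [← finSumFinEquiv.sum_comp, Fintype.sum_sum_type]
    simp

theorem cols_sum {n r s : ℕ} (α : Matrix (Fin n) (Fin r) ℂ) (α' : Matrix (Fin n) (Fin s) ℂ) :
    ((Matrix.fromCols α α').submatrix id finSumFinEquiv.symm) *
      ((Matrix.fromCols α α').submatrix id finSumFinEquiv.symm)ᴴ = α * αᴴ + α' * α'ᴴ := by
  ext i j
  rw [Matrix.add_apply, Matrix.mul_apply, Matrix.mul_apply, Matrix.mul_apply,
    ← finSumFinEquiv.sum_comp, Fintype.sum_sum_type]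
  simp

theorem rows_sum {n r s : ℕ} (β : Matrix (Fin r) (Fin n) ℂ) (β' : Matrix (Fin s) (Fin n) ℂ) :
    ((Matrix.fromRows β β').submatrix finSumFinEquiv.symm id)ᴴ *
      ((Matrix.fromRows β β').submatrix finSumFinEquiv.symm id) = βᴴ * β + β'ᴴ * β' := by
  ext i j
  rw [Matrix.add_apply, Matrix.mul_apply, Matrix.mul_apply, Matrix.mul_apply,
    ← finSumFinEquiv.sum_comp, Fintype.sum_sum_type]
  simp

/-- **Effros–Ruan**: domination of a functional by two functionals on the scalar matrices. -/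
theorem exists_dominating (hN : Ruan E N) (n : ℕ) (F : Matrix (Fin n) (Fin n) E →ₗ[ℝ] ℝ)
    (hF : ∀ y, F y ≤ N n y) :
    ∃ g : (Matrix (Fin n) (Fin n) ℂ × Matrix (Fin n) (Fin n) ℂ) →ₗ[ℝ] ℝ,
      (∀ w, g w ≤ ‖w.1‖ + ‖w.2‖) ∧
      ∀ (r : ℕ) (α : Matrix (Fin n) (Fin r) ℂ) (β : Matrix (Fin r) (Fin n) ℂ)
        (v : Matrix (Fin r) (Fin r) E), N r v ≤ 1 →
        2 * F (mm α β v) ≤ g (α * αᴴ, βᴴ * β) := by
  set S : Set ((Matrix (Fin n) (Fin n) ℂ × Matrix (Fin n) (Fin n) ℂ) × ℝ) :=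
    {s | ∃ (r : ℕ) (α : Matrix (Fin n) (Fin r) ℂ) (β : Matrix (Fin r) (Fin n) ℂ)
      (v : Matrix (Fin r) (Fin r) E), N r v ≤ 1 ∧ s = ((α * αᴴ, βᴴ * β), 2 * F (mm α β v))}
    with hS
  obtain ⟨g, hg1, hg2⟩ := mazur_orlicz
    (V := Matrix (Fin n) (Fin n) ℂ × Matrix (Fin n) (Fin n) ℂ)
    (fun w => ‖w.1‖ + ‖w.2‖)
    (by
      intro c hc x
      have h1 : ∀ A : Matrix (Fin n) (Fin n) ℂ, ‖c • A‖ = c * ‖A‖ := by
        intro A
        have : c • A = (c : ℂ) • A := by ext i j; simp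
        rw [this, norm_smul, Complex.norm_real, Real.norm_of_nonneg hc.le]
      simp only [Prod.smul_fst, Prod.smul_snd, h1]
      ring)
    (by
      intro x y
      have h1 := norm_add_le x.1 y.1
      have h2 := norm_add_le x.2 y.2
      simp only [Prod.fst_add, Prod.snd_add]
      linarith)
    S
    (by
      refine ⟨n, 0, 0, 0, ?_, ?_⟩
      · rw [hN.zero]; norm_num
      · have : mm (0 : Matrix (Fin n) (Fin n) ℂ) (0 : Matrix (Fin n) (Fin n) ℂ)
            (0 : Matrix (Fin n) (Fin n) E) = 0 := by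
          ext i j; simp [mm_apply]
        rw [this]
        simp
        rfl)
    (by
      rintro _ ⟨r, α, β, v, hv, rfl⟩ _ ⟨s, α', β', v', hv', rfl⟩
      refine ⟨r + s, (Matrix.fromCols α α').submatrix id finSumFinEquiv.symm,
        (Matrix.fromRows β β').submatrix finSumFinEquiv.symm id,
        Matrix.reindex finSumFinEquiv finSumFinEquiv (Matrix.fromBlocks v 0 0 v'), ?_, ?_⟩
      · rw [hN.block]
        exact max_le hv hv'
      · rw [mm_sum, cols_sum, rows_sum, map_add]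
        ext1
        · rfl
        · simp only [Prod.snd_add]
          ring)
    (by
      rintro c hc _ ⟨r, α, β, v, hv, rfl⟩
      refine ⟨r, (Real.sqrt c : ℂ) • α, (Real.sqrt c : ℂ) • β, v, hv, ?_⟩
      have hcc : (Real.sqrt c : ℂ) * (Real.sqrt c : ℂ) = (c : ℂ) := by
        rw [← Complex.ofReal_mul, Real.mul_self_sqrt hc.le]
      have hst : star (Real.sqrt c : ℂ) = (Real.sqrt c : ℂ) := Complex.conj_ofReal _
      have hre : ∀ A : Matrix (Fin n) (Fin n) ℂ, c • A = (c : ℂ) • A := fun A => by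
        ext i j; simp
      have hre' : ∀ A : Matrix (Fin n) (Fin n) E, (c : ℂ) • A = c • A := fun A => by
        ext i j; simp
      rw [mm_smul_left, hcc, hre', map_smul, Matrix.conjTranspose_smul, Matrix.conjTranspose_smul,
        hst, Matrix.smul_mul, Matrix.mul_smul, smul_smul, Matrix.smul_mul, Matrix.mul_smul,
        smul_smul, hcc]
      ext1
      · simp only [Prod.smul_fst, Prod.smul_mk, hre]
      · simp only [Prod.smul_snd, smul_eq_mul]
        ring)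
    (by
      rintro _ ⟨r, α, β, v, hv, rfl⟩
      have h1 : F (mm α β v) ≤ ‖α‖ * ‖β‖ := by
        refine (hF _).trans ((hN.mm_le α β v).trans ?_)
        calc ‖α‖ * N r v * ‖β‖ ≤ ‖α‖ * 1 * ‖β‖ := by gcongr
          _ = ‖α‖ * ‖β‖ := by ring
      have h2 : ‖α * αᴴ‖ = ‖α‖ * ‖α‖ := by
        have := Matrix.l2_opNorm_conjTranspose_mul_self αᴴ
        rwa [Matrix.conjTranspose_conjTranspose, Matrix.l2_opNorm_conjTranspose] at this
      have h3 : ‖βᴴ * β‖ = ‖β‖ * ‖β‖ := Matrix.l2_opNorm_conjTranspose_mul_self β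
      simp only [h2, h3]
      nlinarith [sq_nonneg (‖α‖ - ‖β‖)])
  exact ⟨g, hg1, fun r α β v hv => hg2 _ ⟨r, α, β, v, hv, rfl⟩⟩

end

end Pool.Agent.W685.OS
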