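import Mathlib
import Pool.Agent.W685.OS.Ruan1

set_option autoImplicit false

open scoped Matrix.Norms.L2Operator ComplexOrder

namespace Pool.Agent.W685.OS

open Pool.Agent.Helper685.OSep Matrix

section lin

/-- complex linear extension of a real linear functional -/
noncomputable def cext {V : Type*} [AddCommGroup V] [Module ℂ V] (p : V →ₗ[ℝ] ℝ) : V →ₗ[ℂ] ℂ where
  toFun x := (p x : ℂ) - Complex.I * (p (Complex.I • x) : ℂ)
  map_add' x y := by
    rw [smul_add, map_add, map_add]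
    push_cast
    ring
  map_smul' c x := by
    have h1 : ∀ (a : ℝ) (y : V), (a : ℂ) • y = a • y := fun a y => by
      rw [← Complex.coe_smul]
    have hc : c • x = c.re • x + c.im • (Complex.I • x) := by
      rw [← h1, ← h1, smul_smul, ← add_smul, Complex.re_add_im]
    have hc2 : Complex.I • (c • x) = c.re • (Complex.I • x) - c.im • x := by
      rw [hc, smul_add, ← h1, ← h1, ← h1, ← h1, smul_smul, smul_smul, smul_smul, smul_smul,
        ← sub_smul, ← add_smul]
      congr 1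
      linear_combination ((c.im : ℂ)) * Complex.I_mul_I
    rw [hc2, hc]
    simp only [map_add, map_sub, map_smul, smul_eq_mul, RingHom.id_apply]
    push_cast
    conv_rhs => rw [← Complex.re_add_im c]
    linear_combination ((c.im : ℂ) * (p (Complex.I • x) : ℂ)) * Complex.I_mul_I

theorem cext_re {V : Type*} [AddCommGroup V] [Module ℂ V] (p : V →ₗ[ℝ] ℝ) (x : V) :
    (cext p x).re = p x := by
  simp [cext]

end lin

section herm
variable {n : ℕ}

/-- a real functional on the matrices, on rank one positive matrices, is a hermitian form -/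
theorem exists_herm (p : Matrix (Fin n) (Fin n) ℂ →ₗ[ℝ] ℝ) :
    ∃ P : Matrix (Fin n) (Fin n) ℂ, P.IsHermitian ∧
      ∀ x : Fin n → ℂ, star x ⬝ᵥ P *ᵥ x = (p (vecMulVec x (star x)) : ℂ) := by
  set M : Matrix (Fin n) (Fin n) ℂ := Matrix.of fun j i => cext p (Matrix.single i j 1) with hM
  have hMx : ∀ x : Fin n → ℂ, star x ⬝ᵥ M *ᵥ x = cext p (vecMulVec x (star x)) := by
    intro x
    have h1 : vecMulVec x (star x) = ∑ i, ∑ j, (x i * star (x j)) • Matrix.single i j (1 : ℂ) := by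
      rw [Matrix.matrix_eq_sum_single (vecMulVec x (star x))]
      refine Finset.sum_congr rfl fun i _ => Finset.sum_congr rfl fun j _ => ?_
      rw [Matrix.smul_single, smul_eq_mul, mul_one]
      rfl
    have h4 : star x ⬝ᵥ M *ᵥ x = ∑ j, ∑ i, star (x j) * (M j i * x i) := by
      rw [dotProduct]
      refine Finset.sum_congr rfl fun j _ => ?_
      rw [Matrix.mulVec, dotProduct, Finset.mul_sum]
      rfl
    rw [h1, map_sum, h4, Finset.sum_comm]
    refine Finset.sum_congr rfl fun i _ => ?_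
    rw [map_sum]
    refine Finset.sum_congr rfl fun j _ => ?_
    rw [map_smul, smul_eq_mul, hM, Matrix.of_apply]
    ring
  refine ⟨(1 / 2 : ℂ) • (M + Mᴴ), ?_, ?_⟩
  · rw [Matrix.IsHermitian, Matrix.conjTranspose_smul, Matrix.conjTranspose_add,
      Matrix.conjTranspose_conjTranspose, add_comm]
    congr 1
    simp
  · intro x
    rw [Matrix.smul_mulVec, Matrix.add_mulVec, dotProduct_smul, dotProduct_add]
    have h2 : star x ⬝ᵥ Mᴴ *ᵥ x = star (star x ⬝ᵥ M *ᵥ x) := by
      rw [Matrix.star_dotProduct, Matrix.star_mulVec, conjTranspose_conjTranspose,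
        Matrix.dotProduct_mulVec]
    rw [h2, hMx, smul_eq_mul]
    have h3 : ∀ z : ℂ, (1 / 2 : ℂ) * (z + star z) = (z.re : ℂ) := by
      intro z
      rw [show star z = (starRingEnd ℂ) z from rfl, Complex.add_conj]
      push_cast
      ring
    rw [h3, cext_re]


/-- the square norm of a vector -/
theorem sq_norm_eq (x : Fin n → ℂ) : (star x ⬝ᵥ x) = ((∑ i, ‖x i‖ ^ 2 : ℝ) : ℂ) := by
  rw [dotProduct]
  push_cast
  refine Finset.sum_congr rfl fun i _ => ?_
  rw [Pi.star_apply]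
  exact Complex.conj_mul' (x i)

/-- a real functional on the matrices which is nonnegative on the rank one positive matrices is,
up to `ε`, given by an invertible matrix -/
theorem exists_root (p : Matrix (Fin n) (Fin n) ℂ →ₗ[ℝ] ℝ)
    (hp : ∀ x : Fin n → ℂ, 0 ≤ p (vecMulVec x (star x))) (ε : ℝ) (hε : 0 < ε) :
    ∃ A A' : Matrix (Fin n) (Fin n) ℂ, A * A' = 1 ∧ A' * A = 1 ∧
      ∀ x : Fin n → ℂ, ∑ i, ‖(A *ᵥ x) i‖ ^ 2 =
        p (vecMulVec x (star x)) + ε * ∑ i, ‖x i‖ ^ 2 := by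
  obtain ⟨P, hP, hPx⟩ := exists_herm p
  have hPos : (P + (ε : ℂ) • (1 : Matrix (Fin n) (Fin n) ℂ)).PosDef := by
    refine Matrix.PosDef.of_dotProduct_mulVec_pos ?_ ?_
    · refine Matrix.IsHermitian.add hP ?_
      rw [Matrix.IsHermitian, Matrix.conjTranspose_smul, Matrix.conjTranspose_one]
      congr 1
      exact Complex.conj_ofReal ε
    · intro x hx
      rw [Matrix.add_mulVec, Matrix.smul_mulVec, Matrix.one_mulVec, dotProduct_add,
        dotProduct_smul, hPx, sq_norm_eq, smul_eq_mul, ← Complex.ofReal_mul, ← Complex.ofReal_add,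
        Complex.zero_lt_real]
      have h1 : 0 < ∑ i, ‖x i‖ ^ 2 := by
        obtain ⟨i, hi⟩ := Function.ne_iff.mp hx
        refine Finset.sum_pos' (fun i _ => by positivity) ⟨i, Finset.mem_univ i, ?_⟩
        have : 0 < ‖x i‖ := norm_pos_iff.2 hi
        positivity
      have := hp x
      positivity
  have hpsd := hPos.posSemidef
  open scoped MatrixOrder in
  obtain ⟨A, hA⟩ := CStarAlgebra.nonneg_iff_eq_star_mul_self.1
    (Matrix.nonneg_iff_posSemidef.2 hpsd)
  have hAA : Aᴴ * A = P + (ε : ℂ) • (1 : Matrix (Fin n) (Fin n) ℂ) := hA.symm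
  have hdet : IsUnit A.det := by
    rw [isUnit_iff_ne_zero]
    intro h0
    have h1 := hPos.det_pos
    rw [← hAA, Matrix.det_mul, h0, mul_zero] at h1
    exact lt_irrefl _ h1
  refine ⟨A, A⁻¹, Matrix.mul_nonsing_inv A hdet, Matrix.nonsing_inv_mul A hdet, fun x => ?_⟩
  have h1 := sq_norm_eq (A *ᵥ x)
  rw [Matrix.star_mulVec, Matrix.dotProduct_mulVec, Matrix.vecMul_vecMul, hAA,
    ← Matrix.dotProduct_mulVec, Matrix.add_mulVec, Matrix.smul_mulVec, Matrix.one_mulVec,
    dotProduct_add, dotProduct_smul, hPx, sq_norm_eq, smul_eq_mul, ← Complex.ofReal_mul,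
    ← Complex.ofReal_add, Complex.ofReal_inj] at h1
  exact h1.symm

/-- norm bound from the real part of the form -/
theorem norm_le_of_re {ι : Type} [Fintype ι] [DecidableEq ι] (T : Matrix ι ι ℂ) (C : ℝ)
    (hC : 0 ≤ C)
    (h : ∀ ξ η : ι → ℂ, (star ξ ⬝ᵥ T *ᵥ η).re ≤ C * ((∑ i, ‖ξ i‖ ^ 2) + ∑ i, ‖η i‖ ^ 2) / 2) :
    ‖T‖ ≤ C := by
  refine l2norm_le T C hC fun v => ?_
  have hu : ∀ i, ∑ j, T i j * v j = (T *ᵥ v) i := fun i => rfl
  simp only [hu]
  set u := T *ᵥ v with hudef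
  set a := Real.sqrt (∑ i, ‖u i‖ ^ 2) with ha
  set b := Real.sqrt (∑ i, ‖v i‖ ^ 2) with hb
  have ha2 : ∑ i, ‖u i‖ ^ 2 = a ^ 2 := (Real.sq_sqrt (by positivity)).symm
  have hb2 : ∑ i, ‖v i‖ ^ 2 = b ^ 2 := (Real.sq_sqrt (by positivity)).symm
  have ha0 : 0 ≤ a := Real.sqrt_nonneg _
  have hb0 : 0 ≤ b := Real.sqrt_nonneg _
  have h1 := h ((b : ℂ) • u) ((a : ℂ) • v)
  have h2 : ∀ (c : ℝ) (w : ι → ℂ), ∑ i, ‖((c : ℂ) • w) i‖ ^ 2 = c ^ 2 * ∑ i, ‖w i‖ ^ 2 := by
    intro c w
    rw [Finset.mul_sum]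
    refine Finset.sum_congr rfl fun i _ => ?_
    rw [Pi.smul_apply, norm_smul, mul_pow, Complex.norm_real, Real.norm_eq_abs, sq_abs]
  rw [h2, h2, ha2, hb2, Matrix.mulVec_smul, ← hudef, dotProduct_smul, star_smul, smul_dotProduct] at h1
  have h3 : (star u ⬝ᵥ u) = ((a ^ 2 : ℝ) : ℂ) := by
    rw [← ha2, dotProduct]
    push_cast
    refine Finset.sum_congr rfl fun i _ => ?_
    rw [Pi.star_apply]
    exact Complex.conj_mul' (u i)
  rw [h3] at h1
  have h4 : star (b : ℂ) = (b : ℂ) := Complex.conj_ofReal b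
  rw [h4, smul_eq_mul, smul_eq_mul, ← Complex.ofReal_mul, ← Complex.ofReal_mul,
    Complex.ofReal_re] at h1
  rw [ha2, hb2, ← mul_pow]
  refine pow_le_pow_left₀ ha0 ?_ 2
  rcases ha0.eq_or_lt with h0 | hpa
  · rw [← h0]; positivity
  · rcases hb0.eq_or_lt with h0 | hpb
    · exfalso
      have hv0 : v = 0 := by
        have h5 : ∑ i, ‖v i‖ ^ 2 = 0 := by rw [hb2, ← h0]; ring
        rw [Finset.sum_eq_zero_iff_of_nonneg (fun i _ => by positivity)] at h5
        ext i
        have := h5 i (Finset.mem_univ i)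
        simpa using this
      have hu0 : u = 0 := by rw [hudef, hv0, Matrix.mulVec_zero]
      have : a = 0 := by rw [ha, hu0]; simp
      linarith
    · have h5 : (a * b * a ^ 2) ≤ C * b * (a ^ 2 * b) := by nlinarith
      have h6 : 0 < a ^ 2 * b := by positivity
      nlinarith

end herm

end Pool.Agent.W685.OS
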