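import Mathlib
import Pool.Agent.W685.OS.Ruan2

set_option autoImplicit false

open scoped Matrix.Norms.L2Operator ComplexOrder

namespace Pool.Agent.W685.OS

open Pool.Agent.Helper685.OSep Matrix

variable {E : Type} [NormedAddCommGroup E] [NormedSpace ℂ E] {N : MatNorms E}

/-- the big matrix of `φ_k (y)` -/
noncomputable def bigMat {n k : ℕ} (w : E →ₗ[ℂ] Matrix (Fin n) (Fin n) ℂ)
    (y : Matrix (Fin k) (Fin k) E) : Matrix (Fin k × Fin n) (Fin k × Fin n) ℂ :=
  Matrix.of fun p q => w (y p.1 q.1) p.2 q.2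

/-- the map `φ` given by a functional and two matrices -/
noncomputable def phi {n : ℕ} (Fc : Matrix (Fin n) (Fin n) E →ₗ[ℂ] ℂ)
    (C1 C2 : Matrix (Fin n) (Fin n) ℂ) : E →ₗ[ℂ] Matrix (Fin n) (Fin n) ℂ where
  toFun e := Matrix.of fun i j => ∑ a, ∑ b, (C1 i a * C2 b j) * Fc (Matrix.single a b e)
  map_add' e f := by
    ext i j
    simp only [Matrix.of_apply, Matrix.add_apply]
    rw [← Finset.sum_add_distrib]
    refine Finset.sum_congr rfl fun a _ => ?_
    rw [← Finset.sum_add_distrib]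
    refine Finset.sum_congr rfl fun b _ => ?_
    rw [Matrix.single_add, map_add, mul_add]
  map_smul' c e := by
    ext i j
    simp only [Matrix.of_apply, Matrix.smul_apply, RingHom.id_apply, smul_eq_mul]
    rw [Finset.mul_sum]
    refine Finset.sum_congr rfl fun a _ => ?_
    rw [Finset.mul_sum]
    refine Finset.sum_congr rfl fun b _ => ?_
    rw [← Matrix.smul_single, map_smul, smul_eq_mul]
    ring

theorem phi_apply {n : ℕ} (Fc : Matrix (Fin n) (Fin n) E →ₗ[ℂ] ℂ)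
    (C1 C2 : Matrix (Fin n) (Fin n) ℂ) (e : E) (i j : Fin n) :
    phi Fc C1 C2 e i j = ∑ a, ∑ b, (C1 i a * C2 b j) * Fc (Matrix.single a b e) := rfl

/-- the values of a functional on the bimodule products -/
theorem Fc_mm {n r : ℕ} (Fc : Matrix (Fin n) (Fin n) E →ₗ[ℂ] ℂ)
    (α : Matrix (Fin n) (Fin r) ℂ) (β : Matrix (Fin r) (Fin n) ℂ)
    (v : Matrix (Fin r) (Fin r) E) :
    Fc (mm α β v) = ∑ p, ∑ q, ∑ a, ∑ b, (α a p * β q b) * Fc (Matrix.single a b (v p q)) := by
  have h1 : mm α β v = ∑ p, ∑ q, ∑ a, ∑ b, (α a p * β q b) • Matrix.single a b (v p q) := by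
    rw [Matrix.matrix_eq_sum_single (mm α β v)]
    have h2 : ∀ a b, Matrix.single a b (mm α β v a b) =
        ∑ p, ∑ q, (α a p * β q b) • Matrix.single a b (v p q) := by
      intro a b
      have h3 : ∀ e : E, Matrix.single a b e = Matrix.singleAddMonoidHom a b e := fun e => rfl
      rw [mm_apply, h3, map_sum]
      refine Finset.sum_congr rfl fun p _ => ?_
      rw [map_sum]
      refine Finset.sum_congr rfl fun q _ => ?_
      rw [← h3, ← Matrix.smul_single]
    simp_rw [h2]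
    calc _ = ∑ a, ∑ p, ∑ b, ∑ q, (α a p * β q b) • Matrix.single a b (v p q) := by
          refine Finset.sum_congr rfl fun a _ => ?_
          rw [Finset.sum_comm]
      _ = ∑ p, ∑ a, ∑ b, ∑ q, (α a p * β q b) • Matrix.single a b (v p q) := Finset.sum_comm
      _ = ∑ p, ∑ a, ∑ q, ∑ b, (α a p * β q b) • Matrix.single a b (v p q) := by
          refine Finset.sum_congr rfl fun p _ => Finset.sum_congr rfl fun a _ => ?_
          rw [Finset.sum_comm]
      _ = _ := by
          refine Finset.sum_congr rfl fun p _ => ?_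
          rw [Finset.sum_comm]
  rw [h1]
  simp only [map_sum, map_smul, smul_eq_mul]

/-- the form of `φ_k (y)` -/
theorem bigMat_form {n k : ℕ} (Fc : Matrix (Fin n) (Fin n) E →ₗ[ℂ] ℂ)
    (C1 C2 : Matrix (Fin n) (Fin n) ℂ) (y : Matrix (Fin k) (Fin k) E)
    (ξ η : Fin k × Fin n → ℂ) :
    star ξ ⬝ᵥ (bigMat (phi Fc C1 C2) y) *ᵥ η =
      Fc (mm (Matrix.of fun a p => ∑ i, star (ξ (p, i)) * C1 i a)
        (Matrix.of fun q b => ∑ j, C2 b j * η (q, j)) y) := by
  rw [Fc_mm, dotProduct, Fintype.sum_prod_type]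
  refine Finset.sum_congr rfl fun p _ => ?_
  simp only [Matrix.mulVec, dotProduct, Fintype.sum_prod_type, bigMat, Matrix.of_apply, phi_apply,
    Pi.star_apply]
  have h1 : ∀ i, star (ξ (p, i)) * ∑ q, ∑ j, (∑ a, ∑ b, C1 i a * C2 b j *
      Fc (Matrix.single a b (y p q))) * η (q, j) =
      ∑ q, ∑ a, ∑ b, (star (ξ (p, i)) * C1 i a) * (∑ j, C2 b j * η (q, j)) *
        Fc (Matrix.single a b (y p q)) := by
    intro i
    rw [Finset.mul_sum]
    refine Finset.sum_congr rfl fun q _ => ?_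
    simp only [Finset.sum_mul, Finset.mul_sum]
    rw [Finset.sum_comm]
    refine Finset.sum_congr rfl fun a _ => ?_
    rw [Finset.sum_comm]
    refine Finset.sum_congr rfl fun b _ => Finset.sum_congr rfl fun j _ => ?_
    ring
  simp_rw [h1]
  rw [Finset.sum_comm]
  refine Finset.sum_congr rfl fun q _ => ?_
  rw [Finset.sum_comm]
  refine Finset.sum_congr rfl fun a _ => ?_
  rw [Finset.sum_comm]
  refine Finset.sum_congr rfl fun b _ => ?_
  rw [Finset.sum_mul, Finset.sum_mul]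

theorem mulVec_eq_of {n : ℕ} (A A' : Matrix (Fin n) (Fin n) ℂ) (h : A * A' = 1) (x : Fin n → ℂ) :
    A *ᵥ (A' *ᵥ x) = x := by
  rw [Matrix.mulVec_mulVec, h, Matrix.one_mulVec]

theorem rsm {k : ℕ} (c : ℝ) (z : Matrix (Fin k) (Fin k) E) : c • z = (c : ℂ) • z := by
  ext i j
  rw [Matrix.smul_apply, Matrix.smul_apply, Complex.coe_smul]

theorem norm_one_le_one' (n : ℕ) : ‖(1 : Matrix (Fin n) (Fin n) ℂ)‖ ≤ 1 := by
  refine l2norm_le 1 1 zero_le_one fun v => ?_
  have h : ∀ i, ∑ j, (1 : Matrix (Fin n) (Fin n) ℂ) i j * v j = v i := fun i => by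
    simp [Matrix.one_apply]
  simp [h]

/-- a functional on `γ γᴴ` -/
theorem form_le {n k : ℕ} (p : Matrix (Fin n) (Fin n) ℂ →ₗ[ℝ] ℝ) (ε : ℝ) (hε : 0 < ε)
    (A A' : Matrix (Fin n) (Fin n) ℂ) (hA : A * A' = 1)
    (hp : ∀ x : Fin n → ℂ, ∑ i, ‖(A *ᵥ x) i‖ ^ 2 =
        p (vecMulVec x (star x)) + ε * ∑ i, ‖x i‖ ^ 2)
    (γ : Matrix (Fin n) (Fin k) ℂ) (ζ : Fin k × Fin n → ℂ)
    (hγ : ∀ q b, γ b q = ∑ j, A' b j * star (ζ (q, j))) :
    p (γ * γᴴ) ≤ ∑ s, ‖ζ s‖ ^ 2 := by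
  have h1 : γ * γᴴ = ∑ q, vecMulVec (fun b => γ b q) (star fun b => γ b q) := by
    ext a b
    rw [Matrix.mul_apply, Matrix.sum_apply]
    refine Finset.sum_congr rfl fun q _ => ?_
    rw [vecMulVec_apply]
    rfl
  rw [h1, map_sum, Fintype.sum_prod_type]
  refine Finset.sum_le_sum fun q _ => ?_
  have h2 : A *ᵥ (fun b => γ b q) = fun i => star (ζ (q, i)) := by
    have h3 : (fun b => γ b q) = A' *ᵥ (fun i => star (ζ (q, i))) := by
      ext b
      rw [hγ]
      rfl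
    rw [h3, mulVec_eq_of A A' hA]
  have h3 := hp (fun b => γ b q)
  rw [h2] at h3
  simp only [norm_star] at h3
  rw [h3]
  have h4 : 0 ≤ ε * ∑ i, ‖γ i q‖ ^ 2 := by positivity
  linarith

/-- the Hilbert–Schmidt norm of the root -/
theorem root_hs {n : ℕ} (p : Matrix (Fin n) (Fin n) ℂ →ₗ[ℝ] ℝ) (ε : ℝ)
    (A : Matrix (Fin n) (Fin n) ℂ)
    (hp : ∀ x : Fin n → ℂ, ∑ i, ‖(A *ᵥ x) i‖ ^ 2 =
        p (vecMulVec x (star x)) + ε * ∑ i, ‖x i‖ ^ 2) (h1 : p 1 ≤ 1) :
    ∑ s : Fin n × Fin n, ‖star (A s.2 s.1)‖ ^ 2 ≤ 1 + n * ε := by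
  rw [Fintype.sum_prod_type]
  simp only [norm_star]
  have h2 : ∀ q : Fin n, ∑ i, ‖A i q‖ ^ 2 = p (Matrix.single q q 1) + ε := by
    intro q
    have h3 := hp (Pi.single q 1)
    rw [Matrix.mulVec_single_one] at h3
    have h4 : vecMulVec (Pi.single q (1 : ℂ)) (star (Pi.single q (1 : ℂ))) =
        Matrix.single q q (1 : ℂ) := by
      ext a b
      rw [vecMulVec_apply, Pi.star_apply, Matrix.single_apply, Pi.single_apply, Pi.single_apply]
      by_cases ha : a = q
      · by_cases hb : b = q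
        · simp [ha, hb]
        · have hb' : ¬ q = b := fun h => hb h.symm
          simp [ha, hb, hb']
      · have ha' : ¬ q = a := fun h => ha h.symm
        simp [ha, ha']
    have h5 : ∑ i, ‖(Pi.single q (1 : ℂ) : Fin n → ℂ) i‖ ^ 2 = 1 := by
      rw [Finset.sum_eq_single q]
      · simp
      · intro b _ hb
        simp [hb]
      · simp
    rw [h4, h5, mul_one] at h3
    exact h3
  simp_rw [h2]
  rw [Finset.sum_add_distrib, ← map_sum, Finset.sum_const, Finset.card_univ, Fintype.card_fin,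
    nsmul_eq_mul]
  have h6 : ∑ q : Fin n, Matrix.single q q (1 : ℂ) = 1 := by
    ext a b
    rw [Matrix.sum_apply, Matrix.one_apply]
    simp only [Matrix.single_apply]
    by_cases hab : a = b
    · subst hab
      simp
    · rw [if_neg hab]
      refine Finset.sum_eq_zero fun q _ => ?_
      rw [if_neg]
      rintro ⟨rfl, rfl⟩
      exact hab rfl
  rw [h6]
  linarith

theorem re_form_le {ι : Type} [Fintype ι] [DecidableEq ι] (T : Matrix ι ι ℂ) (ξ η : ι → ℂ) (c : ℝ)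
    (h1 : ∑ i, ‖ξ i‖ ^ 2 ≤ c) (h2 : ∑ i, ‖η i‖ ^ 2 ≤ c) :
    (star ξ ⬝ᵥ T *ᵥ η).re ≤ ‖T‖ * c := by
  have hc : 0 ≤ c := le_trans (by positivity) h1
  have h3 := l2norm_mulVec_sq T η
  have hu : ∀ i, ∑ j, T i j * η j = (T *ᵥ η) i := fun i => rfl
  simp only [hu] at h3
  have h4 : (star ξ ⬝ᵥ T *ᵥ η).re ≤ ∑ i, ‖ξ i‖ * ‖(T *ᵥ η) i‖ := by
    refine (Complex.re_le_norm _).trans ?_
    rw [dotProduct]
    refine (norm_sum_le _ _).trans (Finset.sum_le_sum fun i _ => ?_)
    rw [norm_mul, Pi.star_apply, norm_star]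
  have h5 := Finset.sum_mul_sq_le_sq_mul_sq Finset.univ (fun i => ‖ξ i‖) (fun i => ‖(T *ᵥ η) i‖)
  have h6 : (∑ i, ‖ξ i‖ * ‖(T *ᵥ η) i‖) ^ 2 ≤ (‖T‖ * c) ^ 2 := by
    calc _ ≤ (∑ i, ‖ξ i‖ ^ 2) * ∑ i, ‖(T *ᵥ η) i‖ ^ 2 := h5
      _ ≤ c * (‖T‖ ^ 2 * c) := by
          refine mul_le_mul h1 (h3.trans ?_) (by positivity) hc
          gcongr
      _ = _ := by ring
  exact h4.trans ((sq_le_sq₀ (by positivity) (by positivity)).1 h6)

/-- **The key step of Ruan's theorem.** -/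
theorem Ruan.exists_cc (hN : Ruan E N) (n : ℕ) (x : Matrix (Fin n) (Fin n) E) (r : ℝ)
    (hr : r < N n x) :
    ∃ w : E →ₗ[ℂ] Matrix (Fin n) (Fin n) ℂ,
      (∀ (k : ℕ) (y : Matrix (Fin k) (Fin k) E), matNorm w k y ≤ N k y) ∧ r < matNorm w n x := by
  classical
  -- a norming functional
  obtain ⟨F, hF, hFx⟩ : ∃ F : Matrix (Fin n) (Fin n) E →ₗ[ℝ] ℝ, (∀ y, F y ≤ N n y) ∧
      N n x ≤ F x := by
    have hsm : ∀ c : ℝ, 0 ≤ c → ∀ y : Matrix (Fin n) (Fin n) E, N n (c • y) = c * N n y := by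
      intro c hc y
      have h1 : c • y = (c : ℂ) • y := by ext i j; simp
      rw [h1, hN.smul, Complex.norm_real, Real.norm_of_nonneg hc]
    obtain ⟨F, h1, h2⟩ := mazur_orlicz (N n) (fun c hc y => hsm c hc.le y) (hN.add n)
      {s | ∃ c : ℝ, 0 ≤ c ∧ s = (c • x, c * N n x)}
      ⟨0, le_rfl, by simp⟩
      (by
        rintro _ ⟨c, hc, rfl⟩ _ ⟨d, hd, rfl⟩
        refine ⟨c + d, by positivity, ?_⟩
        ext1
        · simp only [Prod.fst_add, add_smul]
        · simp only [Prod.snd_add, add_mul])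
      (by
        rintro c hc _ ⟨d, hd, rfl⟩
        refine ⟨c * d, by positivity, ?_⟩
        ext1
        · simp only [Prod.smul_fst, mul_smul]
        · simp only [Prod.smul_snd, smul_eq_mul, mul_assoc])
      (by
        rintro _ ⟨c, hc, rfl⟩
        exact (hsm c hc x).ge)
    refine ⟨F, h1, ?_⟩
    have := h2 (x, N n x) ⟨1, zero_le_one, by simp⟩
    exact this
  obtain ⟨g, hg1, hg2⟩ := exists_dominating hN n F hF
  set p1 : Matrix (Fin n) (Fin n) ℂ →ₗ[ℝ] ℝ := g ∘ₗ LinearMap.inl ℝ _ _ with hp1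
  set p2 : Matrix (Fin n) (Fin n) ℂ →ₗ[ℝ] ℝ := g ∘ₗ LinearMap.inr ℝ _ _ with hp2
  have hg : ∀ a b, g (a, b) = p1 a + p2 b := by
    intro a b
    rw [hp1, hp2, LinearMap.comp_apply, LinearMap.comp_apply, ← map_add]
    simp
  have hmm0 : ∀ (r : ℕ) (α : Matrix (Fin n) (Fin r) ℂ) (β : Matrix (Fin r) (Fin n) ℂ),
      mm α β (0 : Matrix (Fin r) (Fin r) E) = 0 := by
    intro r α β
    ext i j; simp [mm_apply]
  have hpos1 : ∀ v : Fin n → ℂ, 0 ≤ p1 (vecMulVec v (star v)) := by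
    intro v
    have h1 := hg2 1 (Matrix.of fun i _ => v i) 0 0 (by rw [hN.zero]; norm_num)
    rw [hmm0, map_zero, mul_zero, hg, Matrix.mul_zero, map_zero, add_zero] at h1
    have h2 : (Matrix.of fun i (_ : Fin 1) => v i) * (Matrix.of fun i (_ : Fin 1) => v i)ᴴ =
        vecMulVec v (star v) := by
      ext i j
      simp [Matrix.mul_apply, vecMulVec_apply]
    rwa [h2] at h1
  have hpos2 : ∀ v : Fin n → ℂ, 0 ≤ p2 (vecMulVec v (star v)) := by
    intro v
    have h1 := hg2 1 0 (Matrix.of fun _ i => star (v i)) 0 (by rw [hN.zero]; norm_num)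
    rw [hmm0, map_zero, mul_zero, hg, Matrix.zero_mul, map_zero, zero_add] at h1
    have h2 : (Matrix.of fun (_ : Fin 1) i => star (v i))ᴴ * (Matrix.of fun (_ : Fin 1) i => star (v i)) =
        vecMulVec v (star v) := by
      ext i j
      simp [Matrix.mul_apply, vecMulVec_apply]
    rwa [h2] at h1
  have hone1 : p1 1 ≤ 1 := by
    have h1 := hg1 (1, 0)
    rw [hg, map_zero, add_zero] at h1
    refine h1.trans ?_
    simp only [norm_zero, add_zero]
    exact norm_one_le_one' n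
  have hone2 : p2 1 ≤ 1 := by
    have h1 := hg1 (0, 1)
    rw [hg, map_zero, zero_add] at h1
    refine h1.trans ?_
    simp only [norm_zero, zero_add]
    exact norm_one_le_one' n
  -- the improved domination
  have hdom : ∀ (k : ℕ) (α : Matrix (Fin n) (Fin k) ℂ) (β : Matrix (Fin k) (Fin n) ℂ)
      (y : Matrix (Fin k) (Fin k) E), 2 * F (mm α β y) ≤ N k y * (p1 (α * αᴴ) + p2 (βᴴ * β)) := by
    intro k α β y
    rcases (hN.nonneg k y).eq_or_lt with h0 | hc
    · rw [← h0, zero_mul]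
      have h1 := (hF _).trans (hN.mm_le α β y)
      rw [← h0] at h1
      linarith
    · have h1 := hg2 k α β (((N k y)⁻¹ : ℝ) • y) (by
        have h2 : ((N k y)⁻¹ : ℝ) • y = (((N k y)⁻¹ : ℝ) : ℂ) • y := rsm _ _
        rw [h2, hN.smul, Complex.norm_real, Real.norm_of_nonneg (by positivity),
          inv_mul_cancel₀ hc.ne'])
      have h2 : mm α β (((N k y)⁻¹ : ℝ) • y) = ((N k y)⁻¹ : ℝ) • mm α β y := by
        have h3 : ∀ z : Matrix (Fin k) (Fin k) E, ((N k y)⁻¹ : ℝ) • z = (((N k y)⁻¹ : ℝ) : ℂ) • z :=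
          fun z => rsm _ _
        have h3' : ∀ z : Matrix (Fin n) (Fin n) E, ((N k y)⁻¹ : ℝ) • z = (((N k y)⁻¹ : ℝ) : ℂ) • z :=
          fun z => rsm _ _
        rw [h3, h3', mm_smul_right]
      rw [h2, map_smul, smul_eq_mul, hg] at h1
      have h3 := mul_le_mul_of_nonneg_left h1 hc.le
      have h4 : N k y * (2 * ((N k y)⁻¹ * F (mm α β y))) = 2 * F (mm α β y) := by
        field_simp
      linarith
  -- choice of `ε`
  obtain ⟨ε, hε, hrε⟩ : ∃ ε : ℝ, 0 < ε ∧ r * (1 + n * ε) < N n x := by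
    refine ⟨(N n x - r) / (2 * (|r| * n + 1)), by
      have : 0 < N n x - r := by linarith
      positivity, ?_⟩
    have hd : 0 < N n x - r := by linarith
    set D := 2 * (|r| * n + 1) with hD
    have hDpos : 0 < D := by positivity
    have h1 : r * (n * ((N n x - r) / D)) ≤ (N n x - r) / 2 := by
      have h2 : r * (n * ((N n x - r) / D)) ≤ |r| * (n * ((N n x - r) / D)) :=
        mul_le_mul_of_nonneg_right (le_abs_self r) (by positivity)
      refine h2.trans ?_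
      have h3 : |r| * (n * ((N n x - r) / D)) = (|r| * n) * (N n x - r) / D := by ring
      rw [h3, div_le_div_iff₀ hDpos two_pos]
      have h4 : 0 ≤ |r| * n := by positivity
      nlinarith
    linarith
  obtain ⟨A1, A1', hA1, hA1', hr1⟩ := exists_root p1 hpos1 ε hε
  obtain ⟨A2, A2', hA2, hA2', hr2⟩ := exists_root p2 hpos2 ε hε
  refine ⟨phi (cext F) A1'ᵀ (A2'.map star), fun k y => ?_, ?_⟩
  · refine norm_le_of_re (bigMat (phi (cext F) A1'ᵀ (A2'.map star)) y) _ (hN.nonneg k y)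
      fun ξ η => ?_
    rw [bigMat_form, cext_re]
    have h1 := hdom k (Matrix.of fun a p => ∑ i, star (ξ (p, i)) * A1'ᵀ i a)
        (Matrix.of fun q b => ∑ j, (A2'.map star) b j * η (q, j)) y
    have h2 := form_le p1 ε hε A1 A1' hA1 hr1
      (Matrix.of fun a p => ∑ i, star (ξ (p, i)) * A1'ᵀ i a) ξ (fun q b => by
        rw [Matrix.of_apply]
        refine Finset.sum_congr rfl fun j _ => ?_
        rw [Matrix.transpose_apply, mul_comm])
    have h3 := form_le p2 ε hε A2 A2' hA2 hr2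
      (Matrix.of fun q b => ∑ j, (A2'.map star) b j * η (q, j))ᴴ η (fun q b => by
        rw [Matrix.conjTranspose_apply, Matrix.of_apply, star_sum]
        refine Finset.sum_congr rfl fun j _ => ?_
        rw [Matrix.map_apply, star_mul', star_star])
    rw [Matrix.conjTranspose_conjTranspose] at h3
    have h4 := mul_le_mul_of_nonneg_left (add_le_add h2 h3) (hN.nonneg k y)
    linarith
  · have h1 := re_form_le (bigMat (phi (cext F) A1'ᵀ (A2'.map star)) x)
      (fun s => star (A1 s.2 s.1)) (fun s => star (A2 s.2 s.1)) (1 + n * ε)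
      (root_hs p1 ε A1 hr1 hone1) (root_hs p2 ε A2 hr2 hone2)
    rw [bigMat_form, cext_re] at h1
    have h2 : (Matrix.of fun a p => ∑ i, star ((fun s : Fin n × Fin n => star (A1 s.2 s.1)) (p, i)) *
        A1'ᵀ i a) = (1 : Matrix (Fin n) (Fin n) ℂ) := by
      rw [← hA1']
      ext a p
      rw [Matrix.of_apply, Matrix.mul_apply]
      refine Finset.sum_congr rfl fun i _ => ?_
      rw [star_star, Matrix.transpose_apply, mul_comm]
    have h3 : (Matrix.of fun q b => ∑ j, (A2'.map star) b j *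
        (fun s : Fin n × Fin n => star (A2 s.2 s.1)) (q, j)) = (1 : Matrix (Fin n) (Fin n) ℂ) := by
      have h4 : ((A2' * A2)ᴴ : Matrix (Fin n) (Fin n) ℂ) = 1 := by
        rw [hA2', Matrix.conjTranspose_one]
      rw [← h4]
      ext q b
      rw [Matrix.of_apply, Matrix.conjTranspose_apply, Matrix.mul_apply, star_sum]
      refine Finset.sum_congr rfl fun j _ => ?_
      rw [Matrix.map_apply, star_mul']
    rw [h2, h3, mm_one] at h1
    have h5 : N n x ≤ ‖bigMat (phi (cext F) A1'ᵀ (A2'.map star)) x‖ * (1 + n * ε) := hFx.trans h1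
    have h6 : r * (1 + n * ε) < ‖bigMat (phi (cext F) A1'ᵀ (A2'.map star)) x‖ * (1 + n * ε) :=
      hrε.trans_le h5
    have h7 : 0 < 1 + n * ε := by positivity
    exact lt_of_mul_lt_mul_right h6 h7.le

/-- **Ruan's theorem.** -/
theorem Ruan.isOS (hN : Ruan E N) : IsOSStructure E N := by
  classical
  set ι : Type := {s : Σ κ : ℕ, (E →ₗ[ℂ] Matrix (Fin κ) (Fin κ) ℂ) //
    ∀ (k : ℕ) (y : Matrix (Fin k) (Fin k) E), matNorm s.2 k y ≤ N k y} with hι
  have hι0 : ∀ (k : ℕ) (y : Matrix (Fin k) (Fin k) E),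
      matNorm (0 : E →ₗ[ℂ] Matrix (Fin 0) (Fin 0) ℂ) k y ≤ N k y := by
    intro k y
    refine le_trans (le_of_eq ?_) (hN.nonneg k y)
    rw [matNorm]
    have : (Matrix.of fun (p q : Fin k × Fin 0) =>
        (0 : E →ₗ[ℂ] Matrix (Fin 0) (Fin 0) ℂ) (y p.1 q.1) p.2 q.2) = 0 := by
      ext p q; exact p.2.elim0
    rw [this, norm_zero]
  have : Nonempty ι := ⟨⟨⟨0, 0⟩, hι0⟩⟩
  have hone : ∀ {κ : ℕ} (w : E →ₗ[ℂ] Matrix (Fin κ) (Fin κ) ℂ) (e : E),
      matNorm w 1 (Matrix.of fun _ _ => e) = ‖w e‖ := by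
    intro κ w e
    rw [matNorm]
    apply le_antisymm
    · refine l2norm_le _ _ (norm_nonneg _) fun v => ?_
      have h1 := l2norm_mulVec_sq (w e) (fun j => v (0, j))
      rw [Fintype.sum_prod_type, Fintype.sum_prod_type]
      simpa [Fintype.sum_prod_type] using h1
    · refine l2norm_le _ _ (norm_nonneg _) fun v => ?_
      have h1 := l2norm_mulVec_sq (Matrix.of fun (p q : Fin 1 × Fin κ) =>
        w ((Matrix.of fun (_ _ : Fin 1) => e) p.1 q.1) p.2 q.2) (fun s => v s.2)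
      rw [Fintype.sum_prod_type, Fintype.sum_prod_type] at h1
      simpa [Fintype.sum_prod_type] using h1
  have h := isOS_of_family (E := E) ι (fun i => i.1.1) (fun i => i.1.2)
    (fun i e => by
      have h1 := i.2 1 (Matrix.of fun _ _ => e)
      rw [hone, hN.one] at h1
      exact h1)
    (fun e r hr => by
      rw [← hN.one] at hr
      obtain ⟨w, hw, hrw⟩ := hN.exists_cc 1 _ r hr
      refine ⟨⟨⟨1, w⟩, hw⟩, ?_⟩
      rw [hone] at hrw
      exact hrw)
  have heq : N = fun n x => ⨆ i : ι, matNorm i.1.2 n x := by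
    funext n x
    have hb : BddAbove (Set.range fun i : ι => matNorm i.1.2 n x) :=
      ⟨N n x, by rintro _ ⟨i, rfl⟩; exact i.2 n x⟩
    apply le_antisymm
    · refine le_of_forall_lt fun r hr => ?_
      obtain ⟨w, hw, hrw⟩ := hN.exists_cc n x r hr
      exact hrw.trans_le (le_ciSup hb (⟨⟨n, w⟩, hw⟩ : ι))
    · exact ciSup_le fun i => i.2 n x
  rw [heq]
  exact h

end Pool.Agent.W685.OS
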