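import Mathlib
import Pool.Agent.Helper685.OSep.I
import Pool.Agent.W685.OS.Ruan3

set_option autoImplicit false

open scoped Matrix.Norms.L2Operator

namespace Pool.Agent.W685.OS

open Pool.Agent.Helper685.OSep Matrix

section op
variable {H : Type} [NormedAddCommGroup H] [InnerProductSpace ℂ H]

/-- amplification of a rectangular matrix -/
theorem ampl' (k m : ℕ) (a : Matrix (Fin k) (Fin m) ℂ) (c : ℝ)
    (h : ∀ β : Fin m → ℂ, ∑ i, ‖∑ j, a i j * β j‖ ^ 2 ≤ c ^ 2 * ∑ j, ‖β j‖ ^ 2) (ξ : Fin m → H) :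
    ∑ i, ‖∑ j, a i j • ξ j‖ ^ 2 ≤ c ^ 2 * ∑ j, ‖ξ j‖ ^ 2 := by
  set W : Submodule ℂ H := Submodule.span ℂ (Set.range ξ) with hW
  have hfin : FiniteDimensional ℂ W := FiniteDimensional.span_of_finite ℂ (Set.finite_range ξ)
  set b := stdOrthonormalBasis ℂ W with hb
  set ξ' : Fin m → W := fun j => ⟨ξ j, Submodule.subset_span ⟨j, rfl⟩⟩ with hξ'
  have h1 : ∀ i, ‖∑ j, a i j • ξ j‖ ^ 2 = ∑ l, ‖∑ j, a i j * inner ℂ (b l) (ξ' j)‖ ^ 2 := by
    intro i
    have e1 : ∑ j, a i j • ξ j = ((∑ j, a i j • ξ' j : W) : H) := by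
      simp [hξ']
    rw [e1, Submodule.norm_coe, ← b.sum_sq_norm_inner_right]
    apply Finset.sum_congr rfl
    intro l _
    rw [inner_sum]
    simp only [inner_smul_right]
  have h2 : ∀ j, ‖ξ j‖ ^ 2 = ∑ l, ‖inner ℂ (b l) (ξ' j)‖ ^ 2 := by
    intro j
    rw [b.sum_sq_norm_inner_right]
    rfl
  simp only [h1, h2]
  rw [Finset.sum_comm, Finset.sum_comm (s := Finset.univ (α := Fin m)) (t := Finset.univ),
    Finset.mul_sum]
  apply Finset.sum_le_sum
  intro l _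
  exact h (fun j => inner ℂ (b l) (ξ' j))

theorem opNorm_nonneg' (n : ℕ) (T : Matrix (Fin n) (Fin n) (H →L[ℂ] H)) : 0 ≤ opNorm H n T := by
  rw [opNorm_eq]
  exact norm_nonneg (opM n T)

theorem le_opNorm' (n : ℕ) (T : Matrix (Fin n) (Fin n) (H →L[ℂ] H)) (ξ : Fin n → H) :
    ∑ i, ‖∑ j, T i j (ξ j)‖ ^ 2 ≤ opNorm H n T ^ 2 * ∑ j, ‖ξ j‖ ^ 2 := by
  have h := (opM n T).le_opNorm (WithLp.toLp 2 ξ)
  rw [← opNorm_eq] at h
  have h0 : 0 ≤ opNorm H n T := opNorm_nonneg' n T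
  rw [← pow_le_pow_iff_left₀ (norm_nonneg (opM n T (WithLp.toLp 2 ξ))) (by positivity)
    two_ne_zero, norm_opM_sq, mul_pow, PiLp.norm_sq_eq_of_L2] at h
  exact h

theorem opNorm_le' (n : ℕ) (T : Matrix (Fin n) (Fin n) (H →L[ℂ] H)) (C : ℝ) (hC : 0 ≤ C)
    (h : ∀ ξ : Fin n → H, ∑ i, ‖∑ j, T i j (ξ j)‖ ^ 2 ≤ C ^ 2 * ∑ j, ‖ξ j‖ ^ 2) :
    opNorm H n T ≤ C :=
  csInf_le ⟨0, fun _ hC => hC.1⟩ ⟨hC, h⟩

end op

variable {E : Type} [NormedAddCommGroup E] [NormedSpace ℂ E] {N : MatNorms E}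

theorem ruan_of_isOS (hN : IsOSStructure E N) : Ruan E N := by
  have hN' := hN
  obtain ⟨H, _, _, _, J, hJ⟩ := hN
  refine ⟨str_one hN', fun k x y => str_add hN' k x y, fun k c x => str_smul hN' k c x, ?_, ?_⟩
  · intro k m x y
    rw [hJ, hJ, hJ]
    set T := (Matrix.reindex finSumFinEquiv finSumFinEquiv (Matrix.fromBlocks x 0 0 y)).map J with hT
    have hsplit : ∀ ξ : Fin (k + m) → H, ∑ i, ‖∑ j, T i j (ξ j)‖ ^ 2 =
        (∑ i, ‖∑ j, (x.map J) i j (ξ (Fin.castAdd m j))‖ ^ 2) +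
        ∑ i, ‖∑ j, (y.map J) i j (ξ (Fin.natAdd k j))‖ ^ 2 := by
      intro ξ
      rw [← finSumFinEquiv.sum_comp, Fintype.sum_sum_type]
      congr 1
      · refine Finset.sum_congr rfl fun i _ => ?_
        rw [← finSumFinEquiv.sum_comp, Fintype.sum_sum_type]
        simp [hT]
      · refine Finset.sum_congr rfl fun i _ => ?_
        rw [← finSumFinEquiv.sum_comp, Fintype.sum_sum_type]
        simp [hT]
    have hsplit2 : ∀ ξ : Fin (k + m) → H, ∑ i, ‖ξ i‖ ^ 2 =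
        (∑ i, ‖ξ (Fin.castAdd m i)‖ ^ 2) + ∑ i, ‖ξ (Fin.natAdd k i)‖ ^ 2 := by
      intro ξ
      rw [Fin.sum_univ_add]
    apply le_antisymm
    · refine opNorm_le' _ _ _ (le_max_of_le_left (opNorm_nonneg' _ _)) fun ξ => ?_
      rw [hsplit, hsplit2, mul_add]
      have h1 := le_opNorm' k (x.map J) (fun j => ξ (Fin.castAdd m j))
      have h2 := le_opNorm' m (y.map J) (fun j => ξ (Fin.natAdd k j))
      have h3 : opNorm H k (x.map J) ^ 2 ≤ (max (opNorm H k (x.map J)) (opNorm H m (y.map J))) ^ 2 :=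
        pow_le_pow_left₀ (opNorm_nonneg' _ _) (le_max_left _ _) 2
      have h4 : opNorm H m (y.map J) ^ 2 ≤ (max (opNorm H k (x.map J)) (opNorm H m (y.map J))) ^ 2 :=
        pow_le_pow_left₀ (opNorm_nonneg' _ _) (le_max_right _ _) 2
      refine add_le_add (h1.trans ?_) (h2.trans ?_)
      · exact mul_le_mul_of_nonneg_right h3 (by positivity)
      · exact mul_le_mul_of_nonneg_right h4 (by positivity)
    · refine max_le ?_ ?_
      · refine opNorm_le' _ _ _ (opNorm_nonneg' _ _) fun ξ => ?_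
        have h1 := le_opNorm' (k + m) T (Fin.append ξ (fun _ => 0))
        rw [hsplit, hsplit2] at h1
        simp only [Fin.append_left, Fin.append_right, map_zero, Finset.sum_const_zero, norm_zero] at h1
        simpa using h1
      · refine opNorm_le' _ _ _ (opNorm_nonneg' _ _) fun ξ => ?_
        have h1 := le_opNorm' (k + m) T (Fin.append (fun _ => 0) ξ)
        rw [hsplit, hsplit2] at h1
        simp only [Fin.append_left, Fin.append_right, map_zero, Finset.sum_const_zero, norm_zero] at h1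
        simpa using h1
  · intro k m α β x a b ha hb hα hβ
    rw [hJ, hJ]
    refine opNorm_le' _ _ _ (by have := opNorm_nonneg' m (x.map J); positivity) fun ξ => ?_
    have h1 : ∀ i, ∑ j, ((Matrix.of fun i j => ∑ p, ∑ q, (α i p * β q j) • x p q).map J) i j (ξ j) =
        ∑ p, α i p • (∑ q, (x.map J) p q (∑ j, β q j • ξ j)) := by
      intro i
      simp only [Matrix.map_apply, Matrix.of_apply, map_sum, map_smul, _root_.sum_apply,
        _root_.smul_apply, Finset.smul_sum, smul_smul]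
      rw [Finset.sum_comm]
      refine Finset.sum_congr rfl fun p _ => ?_
      rw [Finset.sum_comm]
    simp only [h1]
    have h2 := ampl' k m α a hα (fun p => ∑ q, (x.map J) p q (∑ j, β q j • ξ j))
    have h3 := le_opNorm' m (x.map J) (fun q => ∑ j, β q j • ξ j)
    have h4 := ampl' m k β b hβ ξ
    calc _ ≤ a ^ 2 * ∑ p, ‖∑ q, (x.map J) p q (∑ j, β q j • ξ j)‖ ^ 2 := h2
      _ ≤ a ^ 2 * (opNorm H m (x.map J) ^ 2 * ∑ q, ‖∑ j, β q j • ξ j‖ ^ 2) := by gcongr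
      _ ≤ a ^ 2 * (opNorm H m (x.map J) ^ 2 * (b ^ 2 * ∑ j, ‖ξ j‖ ^ 2)) := by gcongr
      _ = _ := by ring

theorem ruan_iff : Ruan E N ↔ IsOSStructure E N := ⟨Ruan.isOS, ruan_of_isOS⟩

end Pool.Agent.W685.OS
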